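import Pool.Agent.Helper78.LD8.Defs

/-!
# Project LD8, block TST8: the test time (adapted from helper30's LD6 block)
-/

set_option autoImplicit false

namespace Pool.Agent.Helper85.LD8

open Set
open Pool.Agent.Helper78.LD8

variable {F : Pm} {K : ℕ} {ℓst ℓ : ℝ}

private theorem ex_pow {θ Θ ℓ : ℝ} (hθ : 1 < θ) (hℓ : 0 < ℓ) : ∃ n : ℕ, Θ ≤ θ ^ n * ℓ := by
  obtain ⟨n, hn⟩ := pow_unbounded_of_one_lt (Θ / ℓ) hθ
  exact ⟨n, by rw [div_lt_iff₀ hℓ] at hn; exact hn.le⟩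

private theorem Tt_spec' {θ Θ ℓ : ℝ} (hθ : 1 < θ) (hℓ : 0 < ℓ) : Θ ≤ θ ^ (Tt θ Θ ℓ) * ℓ :=
  Nat.sInf_mem (s := {n : ℕ | Θ ≤ θ ^ n * ℓ}) (ex_pow hθ hℓ)

private theorem lt_Tt' {θ Θ ℓ : ℝ} {j : ℕ} (hj : j < Tt θ Θ ℓ) : θ ^ j * ℓ < Θ :=
  not_le.1 fun h => Nat.notMem_of_lt_sInf hj h

/-- the test time `t`: the first one with `2 ^ (10 E) ≤ V t * ℓ` -/
theorem test_time (hF : F.Ok) (hK : F.Big K) (hℓ : 0 < ℓ) (hst : ℓ ≤ ℓst) (hst1 : ℓst ≤ 1)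
    (hcount : F.T K ℓst (ℓ / 2 ^ F.b K) + F.r K ≤ 2 ^ (2 * K)) :
    ∃ t < 2 ^ (2 * K), (2 : ℝ) ^ (10 * F.E K) ≤ F.V K ℓst t * ℓ ∧ F.V K ℓst (t + F.d) * ℓ ≤ 2 ^ (11 * F.E K) := by
  classical
  have hX := hF.hX
  have ha := hF.ha
  have hθ := hF.h1
  have hθ0 : 0 < F.θ := by linarith
  -- numbers
  have hZe : F.Z = 1000 * ((F.X + 1) * (F.d + 4)) := by
    unfold Pm.Z
    exact Nat.mul_assoc _ _ _
  have hP1 : 1 ≤ (F.X + 1) * (F.d + 4) := Nat.mul_pos (Nat.succ_pos _) (Nat.succ_pos _)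
  have hZ : (F.X + 1) * (F.d + 4) ≤ F.Z := by
    rw [hZe]
    exact Nat.le_mul_of_pos_left _ (by norm_num)
  have hZ1000 : 1000 ≤ F.Z := by
    rw [hZe]
    exact Nat.le_mul_of_pos_right _ hP1
  have hKZ : F.Z ≤ K := by
    have h1 : F.Z ^ 4 ≤ K := hK
    exact (Nat.le_self_pow (n := 4) (by norm_num) F.Z).trans h1
  have hKE : K ≤ F.E K := by
    unfold Pm.E
    exact Nat.le_self_pow (by omega) K
  have hXd : F.X * (F.d + 1) ≤ F.E K := by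
    have h1 : F.X * (F.d + 1) ≤ (F.X + 1) * (F.d + 4) := Nat.mul_le_mul (by omega) (by omega)
    omega
  have hXE : F.X ≤ F.E K := by
    have h1 : F.X ≤ F.X * (F.d + 1) := Nat.le_mul_of_pos_right _ (by omega)
    omega
  have hE1 : 1 ≤ F.E K := by omega
  have hb : 7 * F.E K ≤ F.b K := by
    have h1 : F.b K = F.E K * K ^ (F.a + 1) := by
      unfold Pm.b Pm.E
      rw [← pow_add]
      congr 1
      omega
    have h2 : K ≤ K ^ (F.a + 1) := Nat.le_self_pow (by omega) K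
    rw [h1, mul_comm]
    exact Nat.mul_le_mul_left _ (by omega)
  set B : ℝ := 2 ^ F.b K with hB
  have hB1 : (1 : ℝ) ≤ B := one_le_pow₀ (by norm_num)
  have hℓB : 0 < ℓ / B := by positivity
  have hℓB' : ℓ / B ≤ ℓst := (div_le_self hℓ.le hB1).trans hst
  have hmono : F.n₀ K ℓst ≤ Tt F.θ (F.Th K) (ℓ / B) := by
    refine Nat.sInf_le ?_
    have h1 := Tt_spec' (Θ := F.Th K) hθ hℓB
    exact h1.trans (mul_le_mul_of_nonneg_left hℓB' (by positivity))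
  have hex : (2 : ℝ) ^ (10 * F.E K) ≤ F.V K ℓst (F.T K ℓst (ℓ / B)) * ℓ := by
    have h3 := Tt_spec' (Θ := F.Th K) hθ hℓB
    have h4 : F.n₀ K ℓst + F.T K ℓst (ℓ / B) = Tt F.θ (F.Th K) (ℓ / B) := by
      unfold Pm.T
      omega
    unfold Pm.V
    rw [h4]
    have h6 : F.Th K * B ≤ F.θ ^ Tt F.θ (F.Th K) (ℓ / B) * ℓ := by
      have h7 : F.θ ^ Tt F.θ (F.Th K) (ℓ / B) * (ℓ / B) * B = F.θ ^ Tt F.θ (F.Th K) (ℓ / B) * ℓ := by
        field_simp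
      rw [← h7]
      exact mul_le_mul_of_nonneg_right h3 (by linarith)
    refine le_trans ?_ h6
    have h8 : F.Th K * B = 2 ^ (3 * F.E K + F.b K) := by
      unfold Pm.Th
      rw [hB, pow_add]
    rw [h8]
    exact pow_le_pow_right₀ (by norm_num) (by omega)
  have hex' : ∃ j, (2 : ℝ) ^ (10 * F.E K) ≤ F.V K ℓst j * ℓ := ⟨_, hex⟩
  set t := Nat.find hex' with ht
  have ht1 : (2 : ℝ) ^ (10 * F.E K) ≤ F.V K ℓst t * ℓ := Nat.find_spec hex'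
  have ht2 : t ≤ F.T K ℓst (ℓ / B) := Nat.find_min' hex' hex
  have hr : 1 ≤ F.r K := by
    unfold Pm.r
    exact Nat.mul_pos (by omega) hE1
  have ht3 : t < 2 ^ (2 * K) := by omega
  refine ⟨t, ht3, ht1, ?_⟩
  -- the time `t` is positive
  have hV0 : F.V K ℓst 0 * ℓ < 2 ^ (10 * F.E K) := by
    unfold Pm.V
    rw [Nat.add_zero]
    have h7 : F.θ ^ F.n₀ K ℓst * ℓ ≤ F.θ ^ F.n₀ K ℓst * ℓst := mul_le_mul_of_nonneg_left hst (by positivity)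
    refine lt_of_le_of_lt h7 ?_
    rcases Nat.eq_zero_or_pos (F.n₀ K ℓst) with h0 | h0
    · rw [h0, pow_zero, one_mul]
      exact lt_of_le_of_lt hst1 (one_lt_pow₀ (by norm_num) (by omega))
    · obtain ⟨N, hN⟩ : ∃ N, F.n₀ K ℓst = N + 1 := ⟨F.n₀ K ℓst - 1, by omega⟩
      have h3 : F.θ ^ N * ℓst < F.Th K := lt_Tt' (by
        change N < F.n₀ K ℓst
        omega)
      rw [hN, pow_succ]
      have h4 : F.θ ^ N * F.θ * ℓst = F.θ * (F.θ ^ N * ℓst) := by ring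
      rw [h4]
      have h5 : F.θ * (F.θ ^ N * ℓst) < F.θ * F.Th K := mul_lt_mul_of_pos_left h3 hθ0
      have h6 : F.θ * F.Th K ≤ 2 ^ F.X * F.Th K := mul_le_mul_of_nonneg_right hF.hθ2 (by unfold Pm.Th; positivity)
      have h8 : (2 : ℝ) ^ F.X * F.Th K = 2 ^ (F.X + 3 * F.E K) := by
        unfold Pm.Th
        rw [pow_add]
      have h9 : (2 : ℝ) ^ (F.X + 3 * F.E K) ≤ 2 ^ (10 * F.E K) := pow_le_pow_right₀ (by norm_num) (by omega)
      linarith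
  have htpos : t ≠ 0 := by
    intro h
    rw [h] at ht1
    linarith
  obtain ⟨u, hu⟩ := Nat.exists_eq_succ_of_ne_zero htpos
  have hu1 : F.V K ℓst u * ℓ < 2 ^ (10 * F.E K) := by
    have h3 := Nat.find_min hex' (m := u) (by omega)
    exact not_le.1 h3
  have h3 : F.V K ℓst (t + F.d) = F.θ ^ (F.d + 1) * F.V K ℓst u := by
    unfold Pm.V
    rw [← pow_add]
    congr 1
    omega
  have h4 : F.θ ^ (F.d + 1) ≤ 2 ^ (F.X * (F.d + 1)) := by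
    rw [pow_mul]
    exact pow_le_pow_left₀ hθ0.le hF.hθ2 _
  have hVu : 0 ≤ F.V K ℓst u * ℓ := by
    unfold Pm.V
    positivity
  rw [h3]
  calc F.θ ^ (F.d + 1) * F.V K ℓst u * ℓ = F.θ ^ (F.d + 1) * (F.V K ℓst u * ℓ) := by ring
    _ ≤ 2 ^ (F.X * (F.d + 1)) * (2 ^ (10 * F.E K)) := mul_le_mul h4 hu1.le hVu (by positivity)
    _ = 2 ^ (F.X * (F.d + 1) + 10 * F.E K) := by rw [← pow_add]
    _ ≤ 2 ^ (11 * F.E K) := pow_le_pow_right₀ (by norm_num) (by omega)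

end Pool.Agent.Helper85.LD8
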