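import Pool.Agent.Helper78.LD8.Defs
import Pool.Agent.Helper59.LD6.H3
import Pool.Agent.Helper94.LD6.H4

/-!
# Project LD8, block CLS8: from the sums to the boxes (adapted from helper59's LD6 block)
-/

set_option autoImplicit false

namespace Pool.Agent.Helper85.LD8

open Finset
open Pool.Agent.Helper41.LD6 (hr Qs dm)
open Pool.Agent.Helper78.LD8

/-- two counts over intervals with close end points -/
private theorem count_shift (Q : ℕ → Prop) [DecidablePred Q] {v : ℝ} (hv0 : 0 ≤ v) (hv1 : v ≤ 1) {a a' D : ℕ} (h1 : a ≤ a') (h2 : a' ≤ a + D) :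
    |(((range a').filter Q).card : ℝ) - a' * v - ((((range a).filter Q).card : ℝ) - a * v)| ≤ D := by
  obtain ⟨k, rfl⟩ := Nat.exists_eq_add_of_le h1
  have hk : (k : ℝ) ≤ D := by
    have : k ≤ D := by omega
    exact_mod_cast this
  have e : ((range (a + k)).filter Q).card = ((range a).filter Q).card + ((Ico a (a + k)).filter Q).card := by
    rw [← card_union_of_disjoint]
    · congr 1
      ext n
      simp only [mem_filter, mem_union, mem_range, mem_Ico]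
      constructor
      · rintro ⟨h3, h4⟩
        rcases lt_or_ge n a with h5 | h5
        · exact Or.inl ⟨h5, h4⟩
        · exact Or.inr ⟨⟨h5, h3⟩, h4⟩
      · rintro (⟨h3, h4⟩ | ⟨⟨h3, h4⟩, h5⟩)
        · exact ⟨by omega, h4⟩
        · exact ⟨h4, h5⟩
    · rw [Finset.disjoint_left]
      intro n h3 h4
      simp only [mem_filter, mem_range, mem_Ico] at h3 h4
      omega
  have h3 : ((Ico a (a + k)).filter Q).card ≤ k := (card_filter_le _ _).trans (by simp)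
  have h4 : (((Ico a (a + k)).filter Q).card : ℝ) ≤ k := by exact_mod_cast h3
  have h5 : (0 : ℝ) ≤ ((Ico a (a + k)).filter Q).card := Nat.cast_nonneg _
  rw [e]
  push_cast
  have h6 : (0 : ℝ) ≤ k := Nat.cast_nonneg _
  rw [abs_le]
  constructor <;> nlinarith

private theorem count_Ico (Q : ℕ → Prop) [DecidablePred Q] {a b : ℕ} (h : a ≤ b) :
    (((Ico a b).filter Q).card : ℝ) = ((range b).filter Q).card - ((range a).filter Q).card := by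
  have e : ((range b).filter Q).card = ((range a).filter Q).card + ((Ico a b).filter Q).card := by
    rw [← card_union_of_disjoint]
    · congr 1
      ext n
      simp only [mem_filter, mem_union, mem_range, mem_Ico]
      constructor
      · rintro ⟨h3, h4⟩
        rcases lt_or_ge n a with h5 | h5
        · exact Or.inl ⟨h5, h4⟩
        · exact Or.inr ⟨⟨h5, h3⟩, h4⟩
      · rintro (⟨h3, h4⟩ | ⟨⟨h3, h4⟩, h5⟩)
        · exact ⟨by omega, h4⟩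
        · exact ⟨h4, h5⟩
    · rw [Finset.disjoint_left]
      intro n h3 h4
      simp only [mem_filter, mem_range, mem_Ico] at h3 h4
      omega
  rw [e]
  push_cast
  ring

private theorem ex_pow {θ Θ ℓ : ℝ} (hθ : 1 < θ) (hℓ : 0 < ℓ) : ∃ n : ℕ, Θ ≤ θ ^ n * ℓ := by
  obtain ⟨n, hn⟩ := pow_unbounded_of_one_lt (Θ / ℓ) hθ
  exact ⟨n, by rw [div_lt_iff₀ hℓ] at hn; exact hn.le⟩

private theorem Tt_spec' {θ Θ ℓ : ℝ} (hθ : 1 < θ) (hℓ : 0 < ℓ) : Θ ≤ θ ^ (Tt θ Θ ℓ) * ℓ :=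
  Nat.sInf_mem (s := {n : ℕ | Θ ≤ θ ^ n * ℓ}) (ex_pow hθ hℓ)

private theorem Tt_mono' {θ Θ ℓ ℓ' : ℝ} (hθ : 1 < θ) (hℓ' : 0 < ℓ') (hle : ℓ' ≤ ℓ) : Tt θ Θ ℓ ≤ Tt θ Θ ℓ' := by
  refine Nat.sInf_le ?_
  have h0 : 0 < θ := by linarith
  exact (Tt_spec' (Θ := Θ) hθ hℓ').trans (mul_le_mul_of_nonneg_left hle (by positivity))

variable {F : Pm} {K : ℕ} {ℓst ℓ x : ℝ}

private theorem nu_T' (hF : F.Ok) (hℓ : 0 < ℓ) : Tt F.θ 1 ℓ ≤ Tt F.θ (F.Th K) ℓ ∧ Tt F.θ (F.Th K) ℓ ≤ Tt F.θ 1 ℓ + F.X * (3 * F.E K) := by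
  have hθ := hF.h1
  have h0 : 0 < F.θ := by linarith
  constructor
  · refine Nat.sInf_le ?_
    refine le_trans ?_ (Tt_spec' (Θ := F.Th K) hθ hℓ)
    unfold Pm.Th
    exact one_le_pow₀ (by norm_num)
  · refine Nat.sInf_le ?_
    have h1 := Tt_spec' (Θ := 1) hθ hℓ
    have h2 : (2 : ℝ) ^ (3 * F.E K) ≤ F.θ ^ (F.X * (3 * F.E K)) := by
      rw [pow_mul F.θ]
      exact pow_le_pow_left₀ (by norm_num) hF.hθX _
    change F.Th K ≤ F.θ ^ (Tt F.θ 1 ℓ + F.X * (3 * F.E K)) * ℓ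
    unfold Pm.Th
    calc (2 : ℝ) ^ (3 * F.E K) = 1 * 2 ^ (3 * F.E K) := (one_mul _).symm
      _ ≤ (F.θ ^ Tt F.θ 1 ℓ * ℓ) * F.θ ^ (F.X * (3 * F.E K)) := mul_le_mul h1 h2 (by positivity) (by positivity)
      _ = F.θ ^ (Tt F.θ 1 ℓ + F.X * (3 * F.E K)) * ℓ := by rw [pow_add]; ring

private theorem cls_num {X d Z K a T B₁ : ℕ} {Em S0 : ℝ} (hK : 1 ≤ K) (hXd : (X + 1) * (d + 4) ≤ Z)
    (hEm : Em = 131072 * X * (d + 4) * (K : ℝ) ^ (2 * a + 2) * (4 * (K : ℝ)) ^ (d + 1) + 2 * d)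
    (hT : (T : ℝ) ≤ 2 ^ K * (X * (K : ℝ) ^ (2 * a + 1)))
    (hB : (B₁ : ℝ) = X * (3 * (K : ℝ) ^ a))
    (hS0 : S0 ≤ ((K : ℝ) + 1) ^ (d + 1) * Em + 2 * ((d : ℝ) + 1) * T * (1 / 2) ^ K + 2 * B₁) :
    S0 ≤ (2 ^ 30 * 8 ^ (d + 1) * Z : ℕ) * (K : ℝ) ^ (2 * a + 2 * d + 4) := by
  have hK1 : (1 : ℝ) ≤ K := by exact_mod_cast hK
  have hXd' : ((X : ℝ) + 1) * (d + 4) ≤ Z := by exact_mod_cast hXd
  have hX0 : (0 : ℝ) ≤ X := Nat.cast_nonneg _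
  have hd0 : (0 : ℝ) ≤ d := Nat.cast_nonneg _
  have hZ0 : (0 : ℝ) ≤ Z := Nat.cast_nonneg _
  set P : ℝ := 8 ^ (d + 1) * (K : ℝ) ^ (2 * a + 2 * d + 4) with hP
  have p8 : (1 : ℝ) ≤ 8 ^ (d + 1) := one_le_pow₀ (by norm_num)
  have pK : ∀ j ≤ 2 * a + 2 * d + 4, (K : ℝ) ^ j ≤ (K : ℝ) ^ (2 * a + 2 * d + 4) := fun j hj => pow_le_pow_right₀ hK1 hj
  have hPK : ∀ j ≤ 2 * a + 2 * d + 4, (K : ℝ) ^ j ≤ P := fun j hj => (pK j hj).trans (le_mul_of_one_le_left (by positivity) p8)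
  have hPs : ((K : ℝ) + 1) ^ (d + 1) ≤ 2 ^ (d + 1) * (K : ℝ) ^ (d + 1) := by
    rw [← mul_pow]
    exact pow_le_pow_left₀ (by positivity) (by linarith) (d + 1)
  have h2 : (2 : ℝ) ^ (d + 1) ≤ 8 ^ (d + 1) := pow_le_pow_left₀ (by norm_num) (by norm_num) _
  have e1 : ((K : ℝ) + 1) ^ (d + 1) * (131072 * X * (d + 4) * (K : ℝ) ^ (2 * a + 2) * (4 * (K : ℝ)) ^ (d + 1)) ≤ 131072 * Z * P := by
    calc ((K : ℝ) + 1) ^ (d + 1) * (131072 * X * (d + 4) * (K : ℝ) ^ (2 * a + 2) * (4 * (K : ℝ)) ^ (d + 1))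
        ≤ (2 ^ (d + 1) * (K : ℝ) ^ (d + 1)) * (131072 * X * (d + 4) * (K : ℝ) ^ (2 * a + 2) * (4 * (K : ℝ)) ^ (d + 1)) :=
          mul_le_mul_of_nonneg_right hPs (by positivity)
      _ = 131072 * (X * (d + 4)) * (8 ^ (d + 1) * (K : ℝ) ^ (2 * a + 2 * d + 4)) := by
          have h84 : (8 : ℝ) ^ (d + 1) = 2 ^ (d + 1) * 4 ^ (d + 1) := by rw [← mul_pow]; norm_num
          have hKp : (K : ℝ) ^ (2 * a + 2 * d + 4) = (K : ℝ) ^ (d + 1) * (K : ℝ) ^ (2 * a + 2) * (K : ℝ) ^ (d + 1) := by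
            rw [← pow_add, ← pow_add]
            congr 1
            omega
          rw [h84, mul_pow, hKp]
          ring
      _ ≤ 131072 * Z * (8 ^ (d + 1) * (K : ℝ) ^ (2 * a + 2 * d + 4)) := by
          have h3 : (X : ℝ) * (d + 4) ≤ Z := by nlinarith
          gcongr
      _ = 131072 * Z * P := by rw [hP]
  have e2 : ((K : ℝ) + 1) ^ (d + 1) * (2 * d) ≤ 2 * Z * P := by
    have h3 : (d : ℝ) ≤ Z := by nlinarith
    calc ((K : ℝ) + 1) ^ (d + 1) * (2 * d) ≤ (2 ^ (d + 1) * (K : ℝ) ^ (d + 1)) * (2 * d) := mul_le_mul_of_nonneg_right hPs (by positivity)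
      _ ≤ (8 ^ (d + 1) * (K : ℝ) ^ (2 * a + 2 * d + 4)) * (2 * Z) := by
          have h4 := pK (d + 1) (by omega)
          gcongr
      _ = 2 * Z * P := by rw [hP]; ring
  have e3 : 2 * ((d : ℝ) + 1) * T * (1 / 2 : ℝ) ^ K ≤ 2 * Z * P := by
    have h3 : ((d : ℝ) + 1) * X ≤ Z := by nlinarith
    calc 2 * ((d : ℝ) + 1) * T * (1 / 2 : ℝ) ^ K ≤ 2 * ((d : ℝ) + 1) * (2 ^ K * (X * (K : ℝ) ^ (2 * a + 1))) * (1 / 2 : ℝ) ^ K := by gcongr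
      _ = 2 * (((d : ℝ) + 1) * X) * (K : ℝ) ^ (2 * a + 1) * (2 ^ K * (1 / 2 : ℝ) ^ K) := by ring
      _ = 2 * (((d : ℝ) + 1) * X) * (K : ℝ) ^ (2 * a + 1) := by rw [← mul_pow]; norm_num
      _ ≤ 2 * Z * P := by
          have h4 := hPK (2 * a + 1) (by omega)
          gcongr
  have e4 : 2 * (B₁ : ℝ) ≤ 6 * Z * P := by
    rw [hB]
    have h4 : (X : ℝ) ≤ Z := by nlinarith
    calc 2 * ((X : ℝ) * (3 * (K : ℝ) ^ a)) = 6 * X * (K : ℝ) ^ a := by ring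
      _ ≤ 6 * Z * P := by
          have h5 := hPK a (by omega)
          gcongr
  have hPpos : 0 ≤ P := by positivity
  push_cast
  rw [hEm, mul_add] at hS0
  have h9 : (Z : ℝ) * P ≥ 0 := by positivity
  calc S0 ≤ 131072 * Z * P + 2 * Z * P + 2 * Z * P + 6 * Z * P := by linarith
    _ ≤ 2 ^ 30 * (Z * P) := by nlinarith
    _ = _ := by rw [hP]; ring

theorem cls8 (hF : F.Ok) (hK : F.Big K) (hℓ : 0 < ℓ) (hst : ℓ ≤ ℓst) (hT : F.T K ℓst ℓ ≤ 2 ^ K * (F.X * F.b K))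
    (hsum : ∀ q ∈ Qs F.d K, |∑ j ∈ Finset.range (F.T K ℓst ℓ), ∏ i : Fin (F.d + 1), hr (q i) (F.U K ℓst (j + i) x)| ≤
      131072 * F.X * (F.d + 4) * (K : ℝ) ^ (2 * F.a + 2) * (4 * (K : ℝ)) ^ dm q)
    (α γ : Fin (F.d + 1) → ℝ) (hαγ : ∀ i, 0 ≤ α i ∧ α i ≤ γ i ∧ γ i ≤ 1) :
    |(((Finset.Ico (Tt F.θ 1 ℓst) (Tt F.θ 1 ℓ)).filter fun n : ℕ =>
        ∀ i : Fin (F.d + 1), α i ≤ Int.fract (Uf F.θ F.c (n + i) x) ∧ Int.fract (Uf F.θ F.c (n + i) x) < γ i).card : ℝ) -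
      ((Tt F.θ 1 ℓ : ℝ) - Tt F.θ 1 ℓst) * ∏ i, (γ i - α i)| ≤ F.cF * (K : ℝ) ^ (2 * F.a + 2 * F.d + 4) := by
  have hZe : F.Z = 1000 * ((F.X + 1) * (F.d + 4)) := by
    unfold Pm.Z
    exact Nat.mul_assoc _ _ _
  have hP1 : 1 ≤ (F.X + 1) * (F.d + 4) := Nat.mul_pos (Nat.succ_pos _) (Nat.succ_pos _)
  have hXd : (F.X + 1) * (F.d + 4) ≤ F.Z := by
    rw [hZe]
    exact Nat.le_mul_of_pos_left _ (by norm_num)
  have hK1' : 1 ≤ K := by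
    have h1 : F.Z ^ 4 ≤ K := hK
    have h2 : 1 ≤ F.Z := hP1.trans hXd
    exact (Nat.one_le_pow 4 F.Z h2).trans h1
  have hK1 : (1 : ℝ) ≤ K := by exact_mod_cast hK1'
  have hst0 : 0 < ℓst := lt_of_lt_of_le hℓ hst
  -- the two intervals of times
  obtain ⟨n1, n2⟩ := nu_T' (K := K) hF hℓ
  obtain ⟨m1, m2⟩ := nu_T' (K := K) hF hst0
  have hN : Tt F.θ (F.Th K) ℓst ≤ Tt F.θ (F.Th K) ℓ := Tt_mono' hF.h1 hℓ hst
  have hνν : Tt F.θ 1 ℓst ≤ Tt F.θ 1 ℓ := Tt_mono' hF.h1 hℓ hst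
  set N₁ := Tt F.θ (F.Th K) ℓst with hN₁
  set N₂ := Tt F.θ (F.Th K) ℓ with hN₂
  set T := F.T K ℓst ℓ with hTdef
  have hTN : N₂ = N₁ + T := by
    have : T = N₂ - N₁ := rfl
    omega
  set B₁ := F.X * (3 * F.E K) with hB₁
  -- the sums
  set Em : ℝ := 131072 * F.X * (F.d + 4) * (K : ℝ) ^ (2 * F.a + 2) * (4 * (K : ℝ)) ^ (F.d + 1) with hEm
  have hEm0 : 0 ≤ Em := by positivity
  have hsum2 : ∀ q ∈ Qs F.d K, dm q ≤ F.d + 1 → |∑ n ∈ Finset.Ico N₁ N₂, ∏ i : Fin (F.d + 1), hr (q i) (Uf F.θ F.c (n + i) x)| ≤ Em := by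
    intro q hq hqs
    have h1 := hsum q hq
    have h2 : ∑ n ∈ Finset.Ico N₁ N₂, ∏ i : Fin (F.d + 1), hr (q i) (Uf F.θ F.c (n + i) x) =
        ∑ j ∈ Finset.range T, ∏ i : Fin (F.d + 1), hr (q i) (F.U K ℓst (j + i) x) := by
      rw [hTN, Finset.sum_Ico_eq_sum_range, Nat.add_sub_cancel_left]
      refine sum_congr rfl fun j _ => prod_congr rfl fun i _ => ?_
      unfold Pm.U
      rw [add_assoc]
      rfl
    rw [h2]
    refine h1.trans ?_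
    rw [hEm]
    have h3 : (4 * (K : ℝ)) ^ dm q ≤ (4 * (K : ℝ)) ^ (F.d + 1) := pow_le_pow_right₀ (by linarith) hqs
    exact mul_le_mul_of_nonneg_left h3 (by positivity)
  have hdisc := Pool.Agent.Helper59.LD6.disc6 (K := K) hN (fun n => Uf F.θ F.c n x) (Em := Em + 2 * F.d) (by positivity)
    (fun q hq hq0 => Pool.Agent.Helper94.LD6.shift6 le_rfl hN (fun n => Uf F.θ F.c n x) hsum2 hq hq0) α γ hαγ
  -- change of the intervals
  set v : ℝ := ∏ i, (γ i - α i) with hv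
  have hv0 : 0 ≤ v := prod_nonneg fun i _ => sub_nonneg.2 (hαγ i).2.1
  have hv1 : v ≤ 1 := prod_le_one (fun i _ => sub_nonneg.2 (hαγ i).2.1) fun i _ => by linarith [(hαγ i).1, (hαγ i).2.2]
  set Qp : ℕ → Prop := fun n : ℕ => ∀ i : Fin (F.d + 1), α i ≤ Int.fract (Uf F.θ F.c (n + i) x) ∧ Int.fract (Uf F.θ F.c (n + i) x) < γ i with hQp
  have c1 := count_shift Qp hv0 hv1 n1 n2
  have c2 := count_shift Qp hv0 hv1 m1 m2
  have c3 := count_Ico Qp hνν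
  have c4 := count_Ico Qp hN
  have hTr : ((N₂ : ℝ) - N₁) = T := by rw [hTN]; push_cast; ring
  rw [hTr] at hdisc
  refine cls_num (T := T) (B₁ := B₁) (Em := Em + 2 * F.d) hK1' hXd rfl ?_ ?_ ?_
  · unfold Pm.b at hT
    exact_mod_cast hT
  · rw [hB₁]
    unfold Pm.E
    push_cast
    ring
  · rw [c3]
    rw [c4] at hdisc
    push_cast at hdisc
    rw [abs_le] at c1 c2 hdisc ⊢
    have hTr' : (T : ℝ) * v = N₂ * v - N₁ * v := by rw [← hTr]; ring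
    have hνv : ((Tt F.θ 1 ℓ : ℝ) - Tt F.θ 1 ℓst) * v = Tt F.θ 1 ℓ * v - Tt F.θ 1 ℓst * v := sub_mul _ _ _
    rw [hνv]
    rw [hTr'] at hdisc
    generalize ((K : ℝ) + 1) ^ (F.d + 1) * (Em + 2 * F.d) = A1 at hdisc ⊢
    generalize 2 * ((F.d : ℝ) + 1) * T * (1 / 2) ^ K = A2 at hdisc ⊢
    obtain ⟨c11, c12⟩ := c1
    obtain ⟨c21, c22⟩ := c2
    obtain ⟨d1, d2⟩ := hdisc
    constructor <;> linarith

end Pool.Agent.Helper85.LD8
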